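import Pool.Agent.Lib.MP_5f370d_co.Pent

set_option autoImplicit false

/-!
# Arcs of normal directions cut out by small homothets
-/

namespace Pool.Agent.Lib.MP_5f370d_co

open Real

theorem ev_continuous (x : Plane) : Continuous fun θ => ev θ x := by
  unfold ev; fun_prop

theorem ev_continuous₂ : Continuous fun z : ℝ × Plane => ev z.1 z.2 := by
  unfold ev; fun_prop

theorem ev_ext (a b : ℝ) (h : sin (b - a) ≠ 0) (x y : Plane) (h1 : ev a x = ev a y)
    (h2 : ev b x = ev b y) : x = y := by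
  have key : ∀ v : Plane, ev a v = 0 → ev b v = 0 → v = 0 := by
    intro v k1 k2
    unfold ev at k1 k2
    have e0 : v 0 * sin (b - a) = 0 := by
      rw [sin_sub]; linear_combination sin b * k1 - sin a * k2
    have e1 : v 1 * sin (b - a) = 0 := by
      rw [sin_sub]; linear_combination cos a * k2 - cos b * k1
    have f0 : v 0 = 0 := (mul_eq_zero.mp e0).resolve_right h
    have f1 : v 1 = 0 := (mul_eq_zero.mp e1).resolve_right h
    ext i
    fin_cases i
    · simpa using f0
    · simpa using f1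
  have := key (x - y) (by rw [ev_sub, h1, sub_self]) (by rw [ev_sub, h2, sub_self])
  exact sub_eq_zero.mp this

/-- a compact convex body with unique support points -/
structure Nice (K : Set Plane) where
  /-- the support points -/
  S : Supp
  cpt : IsCompact K
  cvx : Convex ℝ K
  mem : ∀ θ, S.P θ ∈ K
  max : ∀ θ, ∀ x ∈ K, ev θ x ≤ S.h θ
  uniq : ∀ θ, ∀ x ∈ K, ev θ x = S.h θ → x = S.P θ
  wid : ∀ θ, 0 < S.h θ + S.h (θ + π)

namespace Nice

variable {K : Set Plane} (N : Nice K)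

theorem homothet_close {x : Plane} {l : ℝ} (hl : 0 < l) (hl' : l < 1 / 2) {p q : Plane}
    (hp : p ∈ homothet x l K) (hq : q ∈ homothet x l K) : N.S.Close p q := by
  obtain ⟨k, hk, rfl⟩ := hp
  obtain ⟨m, hm, rfl⟩ := hq
  intro θ
  simp only [ev_add, ev_smul]
  have h1 := N.max θ k hk
  have h2 := N.max (θ + π) m hm
  rw [ev_add_pi] at h2
  have h3 := N.wid θ
  have h4 : l * (ev θ k - ev θ m) ≤ l * (N.S.h θ + N.S.h (θ + π)) :=
    mul_le_mul_of_nonneg_left (by linarith) hl.le
  nlinarith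

theorem homothet_not_opp {x : Plane} {l : ℝ} (hl : 0 < l) (hl' : l < 1 / 2) {θ : ℝ}
    (hp : N.S.P θ ∈ homothet x l K) : N.S.P (θ + π) ∉ homothet x l K := by
  intro hq
  obtain ⟨k, hk, e1⟩ := hp
  obtain ⟨m, hm, e2⟩ := hq
  have h1 := N.max θ k hk
  have h2 := N.max (θ + π) m hm
  have f1 : N.S.h θ = ev θ x + l * ev θ k := by
    rw [← ev_smul, ← ev_add]; unfold Supp.h; rw [← e1]
  have f2 : N.S.h (θ + π) = ev (θ + π) x + l * ev (θ + π) m := by
    rw [← ev_smul, ← ev_add]; unfold Supp.h; rw [← e2]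
  rw [ev_add_pi θ x] at f2
  have h3 := N.wid θ
  nlinarith

include N in
theorem homothet_closed (x : Plane) (l : ℝ) : IsCompact (homothet x l K) := by
  have := N.cpt
  exact this.image (by fun_prop)

include N in
theorem homothet_convex (x : Plane) (l : ℝ) : Convex ℝ (homothet x l K) := by
  have hK := N.cvx
  rintro _ ⟨p, hp, rfl⟩ _ ⟨q, hq, rfl⟩ a b ha hb hab
  refine ⟨a • p + b • q, hK hp hq ha hb hab, ?_⟩
  have : x = (a + b) • x := by rw [hab, one_smul]
  simp only
  nth_rewrite 1 [this]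
  module

theorem tri_coords {κ κ' s s' ω ω' : ℝ} (h1 : 0 < κ) (h2 : 0 < κ') (h3 : 0 < ω) (h4 : 0 < ω')
    (h5 : 0 < s - κ) (h6 : 0 < s' - κ') (h7 : 0 ≤ (s' - κ') * (s - κ) - κ * κ') :
    ∃ A A' B : ℝ, 0 < A ∧ 0 < A' ∧ 0 ≤ B ∧ A + A' + B = 1 ∧
      A * κ + A' * (κ - s) + B * ω = 0 ∧ A * (κ' - s') + A' * κ' + B * ω' = 0 := by
  have hA : 0 < (s - κ) * ω' + κ' * ω := by positivity
  have hA' : 0 < ω * (s' - κ') + ω' * κ := by positivity
  have hT : 0 < ((s - κ) * ω' + κ' * ω) + (ω * (s' - κ') + ω' * κ) +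
    ((s' - κ') * (s - κ) - κ * κ') := by linarith
  refine ⟨((s - κ) * ω' + κ' * ω) / (((s - κ) * ω' + κ' * ω) + (ω * (s' - κ') + ω' * κ) +
    ((s' - κ') * (s - κ) - κ * κ')), (ω * (s' - κ') + ω' * κ) / (((s - κ) * ω' + κ' * ω) +
    (ω * (s' - κ') + ω' * κ) + ((s' - κ') * (s - κ) - κ * κ')),
    ((s' - κ') * (s - κ) - κ * κ') / (((s - κ) * ω' + κ' * ω) + (ω * (s' - κ') + ω' * κ) +
    ((s' - κ') * (s - κ) - κ * κ')), by positivity, by positivity, by positivity, ?_, ?_, ?_⟩
  · rw [← add_div, ← add_div, div_self hT.ne']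
  · rw [div_mul_eq_mul_div, div_mul_eq_mul_div, div_mul_eq_mul_div, ← add_div, ← add_div]
    rw [div_eq_zero_iff]; left; ring
  · rw [div_mul_eq_mul_div, div_mul_eq_mul_div, div_mul_eq_mul_div, ← add_div, ← add_div]
    rw [div_eq_zero_iff]; left; ring

theorem convex_three {D : Set Plane} (hD : Convex ℝ D) {p q r : Plane} (hp : p ∈ D) (hq : q ∈ D)
    (hr : r ∈ D) {A B C : ℝ} (hA : 0 < A) (hB : 0 < B) (hC : 0 ≤ C) (h : A + B + C = 1) :
    A • p + B • q + C • r ∈ D := by
  have hAB : 0 < A + B := by linarith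
  have hm : (A / (A + B)) • p + (B / (A + B)) • q ∈ D :=
    hD hp hq (by positivity) (by positivity) (by rw [← add_div, div_self hAB.ne'])
  have hfin : (A + B) • ((A / (A + B)) • p + (B / (A + B)) • q) + C • r ∈ D :=
    hD hm hr hAB.le hC h
  have e : (A + B) • ((A / (A + B)) • p + (B / (A + B)) • q) = A • p + B • q := by
    rw [smul_add, smul_smul, smul_smul, mul_div_cancel₀ _ hAB.ne', mul_div_cancel₀ _ hAB.ne']
  rw [e] at hfin
  exact hfin

/-- Between two directions whose support points lie in a homothet, all support points do. -/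
theorem homothet_between {x : Plane} {l : ℝ} (hl : 0 < l) (hl' : l < 1 / 2) {a t b : ℝ}
    (hat : a < t) (htb : t < b) (hab : b < a + π)
    (hp : N.S.P a ∈ homothet x l K) (hq : N.S.P b ∈ homothet x l K) :
    N.S.P t ∈ homothet x l K := by
  have hα : 0 < sin (b - t) := sin_pos_of_pos_of_lt_pi (by linarith) (by linarith)
  have hβ : 0 < sin (t - a) := sin_pos_of_pos_of_lt_pi (by linarith) (by linarith)
  have hs : 0 < sin (b - a) := sin_pos_of_pos_of_lt_pi (by linarith) (by linarith)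
  have lin : ∀ y, ev t y * sin (b - a) = ev a y * sin (b - t) + ev b y * sin (t - a) := by
    intro y
    have h := ev_lin t a b y
    have e : sin (a - t) = - sin (t - a) := by rw [← sin_neg]; ring_nf
    rw [e] at h
    linarith
  obtain ⟨p, hpdef⟩ : ∃ p, p = N.S.P a := ⟨_, rfl⟩
  obtain ⟨p', hp'def⟩ : ∃ p, p = N.S.P b := ⟨_, rfl⟩
  obtain ⟨q, hqdef⟩ : ∃ p, p = N.S.P t := ⟨_, rfl⟩
  have hpK : p ∈ K := hpdef ▸ N.mem a
  have hp'K : p' ∈ K := hp'def ▸ N.mem b
  have hqK : q ∈ K := hqdef ▸ N.mem t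
  have ha_h : N.S.h a = ev a p := by rw [hpdef]; rfl
  have hb_h : N.S.h b = ev b p' := by rw [hp'def]; rfl
  have ht_h : N.S.h t = ev t q := by rw [hqdef]; rfl
  have ma : ∀ y ∈ K, ev a y ≤ ev a p := fun y hy => ha_h ▸ N.max a y hy
  have mb : ∀ y ∈ K, ev b y ≤ ev b p' := fun y hy => hb_h ▸ N.max b y hy
  have mt : ∀ y ∈ K, ev t y ≤ ev t q := fun y hy => ht_h ▸ N.max t y hy
  have ua : ev a q = ev a p → q = p := fun h => by
    rw [hpdef]; exact N.uniq a q hqK (by rw [ha_h, h])
  have ub : ev b q = ev b p' → q = p' := fun h => by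
    rw [hp'def]; exact N.uniq b q hqK (by rw [hb_h, h])
  rw [← hpdef] at hp
  rw [← hp'def] at hq
  rw [← hqdef]
  have hconv := N.homothet_convex x l
  clear hpdef hp'def hqdef ha_h hb_h ht_h
  have hκ := ma q hqK
  have hκ' := mb q hqK
  have i1 := mt p hpK
  have i2 := mt p' hp'K
  have j1 : (ev a p - ev a q) * sin (b - t) ≤
      ((ev b p' - ev b p) - (ev b p' - ev b q)) * sin (t - a) := by
    have := mul_le_mul_of_nonneg_right i1 hs.le
    rw [lin, lin] at this
    linarith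
  have j2 : (ev b p' - ev b q) * sin (t - a) ≤
      ((ev a p - ev a p') - (ev a p - ev a q)) * sin (b - t) := by
    have := mul_le_mul_of_nonneg_right i2 hs.le
    rw [lin, lin] at this
    linarith
  by_cases c1 : ev a q = ev a p
  · rw [ua c1]; exact hp
  by_cases c2 : ev b q = ev b p'
  · rw [ub c2]; exact hq
  have κpos : 0 < ev a p - ev a q := sub_pos.mpr (lt_of_le_of_ne hκ c1)
  have κ'pos : 0 < ev b p' - ev b q := sub_pos.mpr (lt_of_le_of_ne hκ' c2)
  have s'κ' : 0 < (ev b p' - ev b p) - (ev b p' - ev b q) := by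
    have : 0 < ((ev b p' - ev b p) - (ev b p' - ev b q)) * sin (t - a) :=
      lt_of_lt_of_le (mul_pos κpos hα) j1
    exact pos_of_mul_pos_left this hβ.le
  have sκ : 0 < (ev a p - ev a p') - (ev a p - ev a q) := by
    have : 0 < ((ev a p - ev a p') - (ev a p - ev a q)) * sin (b - t) :=
      lt_of_lt_of_le (mul_pos κ'pos hβ) j2
    exact pos_of_mul_pos_left this hα.le
  have hB : 0 ≤ ((ev b p' - ev b p) - (ev b p' - ev b q)) *
      ((ev a p - ev a p') - (ev a p - ev a q)) - (ev a p - ev a q) * (ev b p' - ev b q) := by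
    have m := mul_le_mul j1 j2 (by positivity) (by positivity)
    have hαβ : 0 < sin (t - a) * sin (b - t) := by positivity
    have : 0 ≤ (((ev b p' - ev b p) - (ev b p' - ev b q)) *
      ((ev a p - ev a p') - (ev a p - ev a q)) - (ev a p - ev a q) * (ev b p' - ev b q)) *
        (sin (t - a) * sin (b - t)) := by linarith
    exact nonneg_of_mul_nonneg_left this hαβ
  have hwD : x + l • q ∈ homothet x l K := ⟨q, hqK, rfl⟩
  have hω : 0 < ev a (x + l • q) - ev a q := by
    obtain ⟨y, hy, ey⟩ := hp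
    have f1 : ev a p = ev a x + l * ev a y := by
      rw [← ev_smul, ← ev_add]; rw [← ey]
    have f3 := mul_le_mul_of_nonneg_left (ma y hy) hl.le
    rw [ev_add, ev_smul]
    nlinarith
  have hω' : 0 < ev b (x + l • q) - ev b q := by
    obtain ⟨y, hy, ey⟩ := hq
    have f1 : ev b p' = ev b x + l * ev b y := by
      rw [← ev_smul, ← ev_add]; rw [← ey]
    have f3 := mul_le_mul_of_nonneg_left (mb y hy) hl.le
    rw [ev_add, ev_smul]
    nlinarith
  obtain ⟨A, A', B, hA, hA', hB', hsum, e1, e2⟩ := tri_coords κpos κ'pos hω hω' sκ s'κ' hB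
  have hqeq : A • p + A' • p' + B • (x + l • q) = q := by
    apply ev_ext a b hs.ne'
    · rw [ev_add, ev_add, ev_smul, ev_smul, ev_smul]
      linear_combination e1 + (ev a q) * hsum
    · rw [ev_add, ev_add, ev_smul, ev_smul, ev_smul]
      linear_combination e2 + (ev b q) * hsum
  rw [← hqeq]
  exact convex_three hconv hp hq hwD hA hA' hB' hsum

/-- The set of directions whose support point lies in a compact set is closed. -/
theorem closed_dir (D : Set Plane) (hD : IsCompact D) : IsClosed {θ | N.S.P θ ∈ D} := by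
  have hset : {θ | N.S.P θ ∈ D} =
      {θ | ∃ p ∈ K ∩ D, ∀ x ∈ K, ev θ x ≤ ev θ p} := by
    ext θ
    constructor
    · intro h
      exact ⟨N.S.P θ, ⟨N.mem θ, h⟩, fun x hx => N.max θ x hx⟩
    · rintro ⟨p, ⟨hpK, hpD⟩, hp⟩
      have h1 : N.S.h θ ≤ ev θ p := hp _ (N.mem θ)
      have h2 : p = N.S.P θ := N.uniq θ p hpK (le_antisymm (N.max θ p hpK) h1)
      show N.S.P θ ∈ D
      rw [← h2]; exact hpD
  rw [hset]
  have hcpt : IsCompact (K ∩ D) := N.cpt.inter hD
  rw [← isSeqClosed_iff_isClosed]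
  intro u θ hu hlim
  choose p hp hmax using hu
  obtain ⟨q, hq, φ, hφ, hq'⟩ := hcpt.tendsto_subseq hp
  refine ⟨q, hq, fun x hx => ?_⟩
  have hlim' : Filter.Tendsto (u ∘ φ) Filter.atTop (nhds θ) := hlim.comp hφ.tendsto_atTop
  have t1 : Filter.Tendsto (fun n => ev ((u ∘ φ) n) x) Filter.atTop (nhds (ev θ x)) :=
    ((ev_continuous x).tendsto θ).comp hlim'
  have t2 : Filter.Tendsto (fun n => ev ((u ∘ φ) n) ((p ∘ φ) n)) Filter.atTop
      (nhds (ev θ q)) := by
    have := (ev_continuous₂.tendsto (θ, q)).comp (hlim'.prodMk_nhds hq')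
    exact this
  exact le_of_tendsto_of_tendsto' t1 t2 (fun n => hmax (φ n) x hx)

end Nice

end Pool.Agent.Lib.MP_5f370d_co
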