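import Pool.Agent.Lib.MP_5f370d_co.Arc

set_option autoImplicit false

/-!
# Five small homothets do not cover a strictly convex body
-/

namespace Pool.Agent.Lib.MP_5f370d_co

open Real

theorem Supp.per_nat (S : Supp) (θ : ℝ) (n : ℕ) : S.P (θ + 2 * π * n) = S.P θ := by
  induction n with
  | zero => simp
  | succ n ih =>
    have : θ + 2 * π * ((n + 1 : ℕ) : ℝ) = (θ + 2 * π * n) + 2 * π := by push_cast; ring
    rw [this, S.per, ih]

/-- explicit version of the core lemma -/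
theorem Supp.core5 (S : Supp) (f0 f1 f2 f3 f4 : ℝ) (h01 : f0 < f1) (h12 : f1 < f2) (h23 : f2 < f3)
    (h34 : f3 < f4) (h40 : f4 < f0 + 2 * π) (g01 : f1 < f0 + π) (g12 : f2 < f1 + π)
    (g23 : f3 < f2 + π) (g34 : f4 < f3 + π) (g40 : f0 + 2 * π < f4 + π)
    (c01 : S.Close (S.P f0) (S.P f1) ∧ S.Close (S.P f1) (S.P f0))
    (c12 : S.Close (S.P f1) (S.P f2) ∧ S.Close (S.P f2) (S.P f1))
    (c23 : S.Close (S.P f2) (S.P f3) ∧ S.Close (S.P f3) (S.P f2))
    (c34 : S.Close (S.P f3) (S.P f4) ∧ S.Close (S.P f4) (S.P f3))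
    (c40 : S.Close (S.P f4) (S.P f0) ∧ S.Close (S.P f0) (S.P f4)) : False := by
  let f : ℕ → ℝ := fun r => if r = 0 then f0 else if r = 1 then f1 else if r = 2 then f2 else
    if r = 3 then f3 else f4
  let θ : ℕ → ℝ := fun n => f (n % 5) + 2 * π * ((n / 5 : ℕ) : ℝ)
  have v0 : ∀ q : ℕ, θ (5 * q) = f0 + 2 * π * q := by
    intro q
    have e1 : (5 * q) % 5 = 0 := by omega
    have e2 : (5 * q) / 5 = q := by omega
    simp only [θ, e1, e2, f]; simp
  have v1 : ∀ q : ℕ, θ (5 * q + 1) = f1 + 2 * π * q := by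
    intro q
    have e1 : (5 * q + 1) % 5 = 1 := by omega
    have e2 : (5 * q + 1) / 5 = q := by omega
    simp only [θ, e1, e2, f]; simp
  have v2 : ∀ q : ℕ, θ (5 * q + 2) = f2 + 2 * π * q := by
    intro q
    have e1 : (5 * q + 2) % 5 = 2 := by omega
    have e2 : (5 * q + 2) / 5 = q := by omega
    simp only [θ, e1, e2, f]; simp
  have v3 : ∀ q : ℕ, θ (5 * q + 3) = f3 + 2 * π * q := by
    intro q
    have e1 : (5 * q + 3) % 5 = 3 := by omega
    have e2 : (5 * q + 3) / 5 = q := by omega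
    simp only [θ, e1, e2, f]; simp
  have v4 : ∀ q : ℕ, θ (5 * q + 4) = f4 + 2 * π * q := by
    intro q
    have e1 : (5 * q + 4) % 5 = 4 := by omega
    have e2 : (5 * q + 4) / 5 = q := by omega
    simp only [θ, e1, e2, f]; simp
  have v5 : ∀ q : ℕ, θ (5 * q + 5) = f0 + 2 * π * q + 2 * π := by
    intro q
    have : 5 * q + 5 = 5 * (q + 1) := by ring
    rw [this, v0]; push_cast; ring
  have all : ∀ n, θ n < θ (n + 1) ∧ θ (n + 1) < θ n + π ∧
      S.Close (S.P (θ n)) (S.P (θ (n + 1))) ∧ S.Close (S.P (θ (n + 1))) (S.P (θ n)) := by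
    intro n
    have hr : n % 5 = 0 ∨ n % 5 = 1 ∨ n % 5 = 2 ∨ n % 5 = 3 ∨ n % 5 = 4 := by omega
    rcases hr with hr | hr | hr | hr | hr
    · obtain ⟨q, rfl⟩ : ∃ q, n = 5 * q := ⟨n / 5, by omega⟩
      rw [v0, v1, S.per_nat, S.per_nat]
      exact ⟨by linarith, by linarith, c01.1, c01.2⟩
    · obtain ⟨q, rfl⟩ : ∃ q, n = 5 * q + 1 := ⟨n / 5, by omega⟩
      rw [v1, v2, S.per_nat, S.per_nat]
      exact ⟨by linarith, by linarith, c12.1, c12.2⟩
    · obtain ⟨q, rfl⟩ : ∃ q, n = 5 * q + 2 := ⟨n / 5, by omega⟩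
      rw [v2, v3, S.per_nat, S.per_nat]
      exact ⟨by linarith, by linarith, c23.1, c23.2⟩
    · obtain ⟨q, rfl⟩ : ∃ q, n = 5 * q + 3 := ⟨n / 5, by omega⟩
      rw [v3, v4, S.per_nat, S.per_nat]
      exact ⟨by linarith, by linarith, c34.1, c34.2⟩
    · obtain ⟨q, rfl⟩ : ∃ q, n = 5 * q + 4 := ⟨n / 5, by omega⟩
      rw [v4, v5, S.per_nat, S.per, S.per_nat]
      exact ⟨by linarith, by linarith, c40.1, c40.2⟩
  refine S.core θ ?_ (fun n => (all n).1) (fun n => (all n).2.1) (fun n => (all n).2.2.1)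
    (fun n => (all n).2.2.2)
  intro n
  have e1 : (n + 5) % 5 = n % 5 := by omega
  have e2 : (n + 5) / 5 = n / 5 + 1 := by omega
  simp only [θ, e1, e2]
  push_cast; ring

namespace Nice

variable {K : Set Plane} (N : Nice K)

/-- one step: two directions at angle less than `π` whose support points lie in a common member
of the family `D` of homothets -/
def Step (D : Fin 5 → Set Plane) (a b : ℝ) : Prop :=
  a < b ∧ b < a + π ∧ ∃ i, N.S.P a ∈ D i ∧ N.S.P b ∈ D i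

/-- `n` steps -/
def Reach (D : Fin 5 → Set Plane) : ℕ → ℝ → ℝ → Prop
  | 0, a, b => a = b
  | n + 1, a, b => ∃ c, N.Step D a c ∧ Reach D n c b

variable {x : Fin 5 → Plane} {l : Fin 5 → ℝ} (hl : ∀ i, 0 < l i ∧ l i < 1 / 2)

include hl in
theorem step_split {a b : ℝ} (h : N.Step (fun i => homothet (x i) (l i) K) a b) :
    ∃ c, N.Step (fun i => homothet (x i) (l i) K) a c ∧
      N.Step (fun i => homothet (x i) (l i) K) c b := by
  obtain ⟨h1, h2, i, hi1, hi2⟩ := h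
  have hm : N.S.P ((a + b) / 2) ∈ homothet (x i) (l i) K :=
    N.homothet_between (hl i).1 (hl i).2 (by linarith) (by linarith) h2 hi1 hi2
  exact ⟨(a + b) / 2, ⟨by linarith, by linarith, i, hi1, hm⟩, ⟨by linarith, by linarith, i, hm, hi2⟩⟩

include hl in
theorem reach_succ {n : ℕ} {a b : ℝ} (h : N.Reach (fun i => homothet (x i) (l i) K) (n + 1) a b) :
    N.Reach (fun i => homothet (x i) (l i) K) (n + 2) a b := by
  obtain ⟨c, h1, h2⟩ := h
  obtain ⟨d, h3, h4⟩ := N.step_split hl h1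
  exact ⟨d, h3, c, h4, h2⟩

include hl in
theorem reach_five {n : ℕ} (hn : 1 ≤ n) (hn' : n ≤ 5) {a b : ℝ}
    (h : N.Reach (fun i => homothet (x i) (l i) K) n a b) :
    N.Reach (fun i => homothet (x i) (l i) K) 5 a b := by
  have h1 : n = 1 ∨ n = 2 ∨ n = 3 ∨ n = 4 ∨ n = 5 := by omega
  rcases h1 with rfl | rfl | rfl | rfl | rfl
  · exact N.reach_succ hl (N.reach_succ hl (N.reach_succ hl (N.reach_succ hl h)))
  · exact N.reach_succ hl (N.reach_succ hl (N.reach_succ hl h))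
  · exact N.reach_succ hl (N.reach_succ hl h)
  · exact N.reach_succ hl h
  · exact h

include hl in
theorem reach_false (a : ℝ)
    (h : N.Reach (fun i => homothet (x i) (l i) K) 5 a (a + 2 * π)) : False := by
  have cl : ∀ {a b : ℝ}, N.Step (fun i => homothet (x i) (l i) K) a b →
      N.S.Close (N.S.P a) (N.S.P b) ∧ N.S.Close (N.S.P b) (N.S.P a) := by
    rintro a b ⟨_, _, i, h1, h2⟩
    exact ⟨N.homothet_close (hl i).1 (hl i).2 h1 h2, N.homothet_close (hl i).1 (hl i).2 h2 h1⟩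
  obtain ⟨f1, s1, f2, s2, f3, s3, f4, s4, f5, s5, h5⟩ := h
  have h5 : f5 = a + 2 * π := h5
  subst h5
  have c5 := cl s5
  rw [N.S.per] at c5
  exact N.S.core5 a f1 f2 f3 f4 s1.1 s2.1 s3.1 s4.1 s5.1 s1.2.1 s2.2.1 s3.2.1 s4.2.1 s5.2.1
    (cl s1) (cl s2) (cl s3) (cl s4) c5

/-- the greedy step -/
theorem greedy (D : Fin 5 → Set Plane) (hD : ∀ i, IsCompact (D i))
    (hopp : ∀ i θ, N.S.P θ ∈ D i → N.S.P (θ + π) ∉ D i) (hcov : ∀ p ∈ K, ∃ i, p ∈ D i) (θ : ℝ) :
    ∃ i s, N.S.P θ ∈ D i ∧ N.S.P s ∈ D i ∧ θ < s ∧ s < θ + π ∧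
      ∀ t, s < t → t ≤ θ + π → N.S.P t ∉ D i := by
  have hclosed : ∀ i, IsClosed {t | N.S.P t ∈ D i} := fun i => N.closed_dir (D i) (hD i)
  -- some index has points to the right
  have hex : ∃ i, N.S.P θ ∈ D i ∧ ∃ t, θ < t ∧ t ≤ θ + π ∧ N.S.P t ∈ D i := by
    by_contra hno
    push Not at hno
    have hδ : ∀ i, ∃ δ > 0, ∀ t, θ < t → t < θ + δ → N.S.P t ∉ D i := by
      intro i
      by_cases hi : N.S.P θ ∈ D i
      · exact ⟨π, pi_pos, fun t h1 h2 => hno i hi t h1 h2.le⟩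
      · have hopen : IsOpen {t | N.S.P t ∈ D i}ᶜ := (hclosed i).isOpen_compl
        obtain ⟨δ, hδ, hball⟩ := Metric.isOpen_iff.mp hopen θ hi
        refine ⟨δ, hδ, fun t h1 h2 => ?_⟩
        have : t ∈ Metric.ball θ δ := by
          rw [Metric.mem_ball, Real.dist_eq, abs_of_pos (by linarith)]; linarith
        exact hball this
    choose δ hδpos hδ using hδ
    have hne : (Finset.univ : Finset (Fin 5)).Nonempty := Finset.univ_nonempty
    obtain ⟨i0, -, hi0⟩ := Finset.exists_min_image Finset.univ δ hne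
    obtain ⟨j, hj⟩ := hcov _ (N.mem (θ + δ i0 / 2))
    have h1 := hi0 j (Finset.mem_univ j)
    have h2 := hδpos i0
    exact hδ j (θ + δ i0 / 2) (by linarith) (by linarith) hj
  obtain ⟨i, hi, t0, ht0, ht0', ht0D⟩ := hex
  have hcpt : IsCompact ({t | N.S.P t ∈ D i} ∩ Set.Icc θ (θ + π)) := by
    rw [Set.inter_comm]
    exact isCompact_Icc.inter_right (hclosed i)
  obtain ⟨s, ⟨hsD, hs1, hs2⟩, hsmax⟩ := hcpt.exists_isGreatest ⟨t0, ht0D, ht0.le, ht0'⟩
  have hst : t0 ≤ s := hsmax ⟨ht0D, ht0.le, ht0'⟩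
  refine ⟨i, s, hi, hsD, by linarith, lt_of_le_of_ne hs2 ?_, ?_⟩
  · intro he
    rw [he] at hsD
    exact hopp i θ hi hsD
  · intro t ht1 ht2 htD
    exact absurd (hsmax ⟨htD, by linarith, ht2⟩) (not_le.mpr ht1)

end Nice

end Pool.Agent.Lib.MP_5f370d_co
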