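import Pool.Agent.Lib.MP_5f370d_co.Defs

set_option autoImplicit false

/-!
# The pentagon inequality
-/

namespace Pool.Agent.Lib.MP_5f370d_co

open Real

/-- The linear functional `p ↦ ⟨(cos θ, sin θ), p⟩`. -/
noncomputable def ev (θ : ℝ) (p : Plane) : ℝ := cos θ * p 0 + sin θ * p 1

theorem ev_add (θ : ℝ) (p q : Plane) : ev θ (p + q) = ev θ p + ev θ q := by
  simp [ev]; ring

theorem ev_sub (θ : ℝ) (p q : Plane) : ev θ (p - q) = ev θ p - ev θ q := by
  simp [ev]; ring

theorem ev_smul (θ c : ℝ) (p : Plane) : ev θ (c • p) = c * ev θ p := by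
  simp [ev]; ring

theorem ev_add_pi (θ : ℝ) (p : Plane) : ev (θ + π) p = - ev θ p := by
  simp [ev]; ring

theorem ev_add_two_pi (θ : ℝ) (p : Plane) : ev (θ + 2 * π) p = ev θ p := by
  simp [ev]

/-- linear relation between three functionals -/
theorem ev_lin (a c d : ℝ) (x : Plane) :
    ev a x * sin (d - c) = ev c x * sin (d - a) - ev d x * sin (c - a) := by
  simp only [ev, sin_sub]
  ring

/-- Support data: a `2π`-periodic choice of support points of a body. -/
structure Supp where
  /-- the support point in direction `θ` -/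
  P : ℝ → Plane
  le : ∀ θ φ, ev θ (P φ) ≤ ev θ (P θ)
  per : ∀ θ, P (θ + 2 * π) = P θ

namespace Supp

variable (S : Supp)

/-- the support function -/
noncomputable def h (θ : ℝ) : ℝ := ev θ (S.P θ)

theorem h_per (θ : ℝ) : S.h (θ + 2 * π) = S.h θ := by
  unfold h; rw [S.per, ev_add_two_pi]

/-- `p` and `q` lie in a homothet of ratio `< 1/2`: every functional separates them by less than
half of the width of the body. -/
def Close (p q : Plane) : Prop := ∀ θ, 2 * (ev θ p - ev θ q) < S.h θ + S.h (θ + π)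

theorem opp (a c d : ℝ) (h1 : 0 ≤ sin (c - a)) (h2 : sin (d - a) ≤ 0) :
    S.h (a + π) * sin (d - c) ≤ - sin (d - a) * S.h c + sin (c - a) * S.h d := by
  have e1 : S.h (a + π) = - ev a (S.P (a + π)) := by unfold h; rw [ev_add_pi]
  have e2 := ev_lin a c d (S.P (a + π))
  have e3 : ev c (S.P (a + π)) ≤ S.h c := S.le _ _
  have e4 : ev d (S.P (a + π)) ≤ S.h d := S.le _ _
  have e5 := mul_le_mul_of_nonneg_left e3 (neg_nonneg.mpr h2)
  have e6 := mul_le_mul_of_nonneg_left e4 h1
  rw [e1]
  nlinarith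

theorem opp' (a b d : ℝ) (h1 : 0 ≤ sin (d - b)) (h2 : sin (d - a) ≤ 0) :
    S.h (d + π) * sin (b - a) ≤ sin (d - b) * S.h a - sin (d - a) * S.h b := by
  have e1 : S.h (d + π) = - ev d (S.P (d + π)) := by unfold h; rw [ev_add_pi]
  have e2 := ev_lin a b d (S.P (d + π))
  have e3 : ev a (S.P (d + π)) ≤ S.h a := S.le _ _
  have e4 : ev b (S.P (d + π)) ≤ S.h b := S.le _ _
  have e5 := mul_le_mul_of_nonneg_left e3 h1
  have e6 := mul_le_mul_of_nonneg_left e4 (neg_nonneg.mpr h2)
  rw [e1]
  nlinarith

/-- no long side -/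
theorem long_false (a b c : ℝ) (hab : a < b) (hbc : b < c) (hab' : b < a + π) (hbc' : c < b + π)
    (hac : a + π ≤ c) (h1 : S.Close (S.P a) (S.P b)) (h2 : S.Close (S.P c) (S.P b)) : False := by
  have sba : 0 < sin (b - a) := sin_pos_of_pos_of_lt_pi (by linarith) (by linarith)
  have scb : 0 < sin (c - b) := sin_pos_of_pos_of_lt_pi (by linarith) (by linarith)
  have sca : sin (c - a) ≤ 0 := by
    have : sin (c - a) = - sin (c - a - π) := by rw [sin_sub_pi]; ring
    rw [this]
    have := sin_nonneg_of_nonneg_of_le_pi (x := c - a - π) (by linarith) (by linarith)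
    linarith
  have k1 := h1 a
  have k2 := h2 c
  have o1 := S.opp a b c sba.le sca
  have o2 := S.opp' a b c scb.le sca
  have l1 := ev_lin a b c (S.P b)
  have hb : S.h b = ev b (S.P b) := rfl
  have ha : S.h a = ev a (S.P a) := rfl
  have hc : S.h c = ev c (S.P c) := rfl
  rw [← hb] at l1
  rw [← ha] at k1
  rw [← hc] at k2
  have m1 := mul_lt_mul_of_pos_right k1 scb
  have m2 := mul_lt_mul_of_pos_right k2 sba
  nlinarith

/-- the deviation of the support point `P b` from the midpoint of the side in direction `b` of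
the polygon with sides in directions `a, b, c` -/
noncomputable def X (a b c : ℝ) : ℝ :=
  (S.h a - ev a (S.P b)) / sin (b - a) - (S.h c - ev c (S.P b)) / sin (c - b)

theorem short1 (a b c d : ℝ) (sba : 0 < sin (b - a)) (scb : 0 < sin (c - b))
    (sdc : 0 < sin (d - c)) (sca : 0 ≤ sin (c - a)) (sda : sin (d - a) ≤ 0)
    (h1 : S.Close (S.P b) (S.P c)) :
    S.X b c d * sin (c - a) < S.X a b c * sin (b - a) := by
  have k1 := h1 a
  have o1 := S.opp a c d sca sda
  have l1 := ev_lin a b c (S.P b)
  have l2 := ev_lin a b c (S.P c)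
  have l3 := ev_lin a c d (S.P c)
  have hb : ev b (S.P b) = S.h b := rfl
  have hc : ev c (S.P c) = S.h c := rfl
  rw [hb] at l1
  rw [hc] at l2 l3
  have m1 := mul_lt_mul_of_pos_right k1 sdc
  have key : (S.X a b c * sin (b - a) - S.X b c d * sin (c - a)) * sin (d - c) =
      S.h a * sin (d - c) - S.h c * sin (d - a) + S.h d * sin (c - a)
        - 2 * (ev a (S.P b) - ev a (S.P c)) * sin (d - c) := by
    unfold X
    have n1 := sba.ne'
    have n2 := scb.ne'
    have n3 := sdc.ne'
    field_simp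
    linear_combination sin (d - c) * l1 - sin (d - c) * l2 - sin (c - b) * l3
  have pos : 0 < (S.X a b c * sin (b - a) - S.X b c d * sin (c - a)) * sin (d - c) := by
    rw [key]; nlinarith
  have := pos_of_mul_pos_left pos sdc.le
  linarith

theorem short2 (a b c d : ℝ) (sba : 0 < sin (b - a)) (scb : 0 < sin (c - b))
    (sdc : 0 < sin (d - c)) (sdb : 0 ≤ sin (d - b)) (sda : sin (d - a) ≤ 0)
    (h1 : S.Close (S.P c) (S.P b)) :
    S.X b c d * sin (d - c) < S.X a b c * sin (d - b) := by
  have k1 := h1 d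
  have o1 := S.opp' a b d sdb sda
  have l1 := ev_lin d b c (S.P b)
  have l2 := ev_lin d b c (S.P c)
  have l3 := ev_lin d a b (S.P b)
  have e1 : sin (c - d) = - sin (d - c) := by rw [← sin_neg]; ring_nf
  have e2 : sin (b - d) = - sin (d - b) := by rw [← sin_neg]; ring_nf
  have e3 : sin (a - d) = - sin (d - a) := by rw [← sin_neg]; ring_nf
  rw [e1, e2] at l1 l2
  rw [e2, e3] at l3
  have hb : ev b (S.P b) = S.h b := rfl
  have hc : ev c (S.P c) = S.h c := rfl
  rw [hb] at l1 l3
  rw [hc] at l2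
  have m1 := mul_lt_mul_of_pos_right k1 sba
  have key : (S.X a b c * sin (d - b) - S.X b c d * sin (d - c)) * sin (b - a) =
      S.h a * sin (d - b) - S.h b * sin (d - a) + S.h d * sin (b - a)
        - 2 * (ev d (S.P c) - ev d (S.P b)) * sin (b - a) := by
    unfold X
    have n1 := sba.ne'
    have n2 := scb.ne'
    have n3 := sdc.ne'
    field_simp
    linear_combination sin (b - a) * l2 - sin (b - a) * l1 - sin (c - b) * l3
  have pos : 0 < (S.X a b c * sin (d - b) - S.X b c d * sin (d - c)) * sin (b - a) := by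
    rw [key]; nlinarith
  have := pos_of_mul_pos_left pos sba.le
  linarith

/-- Pluecker relation -/
theorem plucker (a b c d : ℝ) (scb : 0 ≤ sin (c - b)) (sda : sin (d - a) ≤ 0) :
    sin (c - a) * sin (d - b) ≤ sin (b - a) * sin (d - c) := by
  have : sin (c - a) * sin (d - b) - sin (b - a) * sin (d - c) = sin (c - b) * sin (d - a) := by
    simp only [sin_sub]
    have h1 := sin_sq_add_cos_sq b
    have h2 := sin_sq_add_cos_sq c
    ring_nf
  nlinarith [mul_nonneg scb (neg_nonneg.mpr sda)]

end Supp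

end Pool.Agent.Lib.MP_5f370d_co
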