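import Mathlib

set_option autoImplicit false

/-!
# Covering plane convex bodies by smaller homothets: definitions
-/

namespace Pool.Agent.Lib.MP_5f370d_co

/-- The Euclidean plane. -/
abbrev Plane := EuclideanSpace ℝ (Fin 2)

/-- A plane convex body: a compact convex subset of the plane with nonempty interior. -/
def IsConvexBody (K : Set Plane) : Prop :=
  IsCompact K ∧ Convex ℝ K ∧ (interior K).Nonempty

/-- The homothetic copy `x + l K` of `K`. -/
def homothet (x : Plane) (l : ℝ) (K : Set Plane) : Set Plane :=
  (fun k => x + l • k) '' K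

/-- `K` is `m`-coverable below `1/2`: it is covered by `m` homothetic copies of itself with
positive ratios smaller than `1/2`. -/
def CoverableBelowHalf (m : ℕ) (K : Set Plane) : Prop :=
  ∃ (x : Fin m → Plane) (l : Fin m → ℝ), (∀ i, 0 < l i ∧ l i < 1 / 2) ∧
    K ⊆ ⋃ i, homothet (x i) (l i) K

end Pool.Agent.Lib.MP_5f370d_co
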