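import Pool.Agent.Lib.MP_5f370d_co.Chain

set_option autoImplicit false

/-!
# Five small homothets do not cover a strictly convex body
-/

namespace Pool.Agent.Lib.MP_5f370d_co

open Real

namespace Nice

variable {K : Set Plane} (N : Nice K)

theorem reach_of (D : Fin 5 → Set Plane) (θ : ℕ → ℝ) (hlt : ∀ n, θ n < θ (n + 1))
    (hgap : ∀ n, θ (n + 1) < θ n + π)
    (ind : ℕ → Fin 5) (hm : ∀ n t, θ n ≤ t → t ≤ θ (n + 1) → N.S.P t ∈ D (ind n)) :
    ∀ n i T, θ i < T → T ≤ θ (i + n) → ∃ m, 1 ≤ m ∧ m ≤ n ∧ N.Reach D m (θ i) T := by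
  intro n
  induction n with
  | zero =>
    intro i T h1 h2
    exact absurd h1 (not_lt.mpr h2)
  | succ n ih =>
    intro i T h1 h2
    rcases le_or_gt T (θ (i + 1)) with h3 | h3
    · refine ⟨1, le_rfl, by omega, T, ⟨h1, by linarith [hgap i], ind i, ?_, ?_⟩, rfl⟩
      · exact hm i (θ i) le_rfl (by linarith)
      · exact hm i T h1.le h3
    · obtain ⟨m, hm1, hm2, hm3⟩ := ih (i + 1) T h3 (by
        rw [show i + 1 + n = i + (n + 1) by omega]; exact h2)
      exact ⟨m + 1, by omega, by omega, θ (i + 1), ⟨hlt i, hgap i, ind i,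
          hm i (θ i) le_rfl (hlt i).le, hm i (θ (i + 1)) (hlt i).le le_rfl⟩, hm3⟩

include N in
/-- a strictly convex body is not covered by five small homothets -/
theorem no_five (x : Fin 5 → Plane) (l : Fin 5 → ℝ) (hl : ∀ i, 0 < l i ∧ l i < 1 / 2)
    (hcov : ∀ p ∈ K, ∃ i, p ∈ homothet (x i) (l i) K) : False := by
  have hD : ∀ i, IsCompact (homothet (x i) (l i) K) := fun i => N.homothet_closed _ _
  have hopp : ∀ i θ, N.S.P θ ∈ homothet (x i) (l i) K → N.S.P (θ + π) ∉ homothet (x i) (l i) K :=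
    fun i θ h => N.homothet_not_opp (hl i).1 (hl i).2 h
  have hbet : ∀ i a b t, N.S.P a ∈ homothet (x i) (l i) K → N.S.P b ∈ homothet (x i) (l i) K →
      b < a + π → a ≤ t → t ≤ b → N.S.P t ∈ homothet (x i) (l i) K := by
    intro i a b t ha hb hab h1 h2
    rcases h1.eq_or_lt with rfl | h1
    · exact ha
    rcases h2.eq_or_lt with rfl | h2
    · exact hb
    exact N.homothet_between (hl i).1 (hl i).2 h1 h2 hab ha hb
  have hgr := N.greedy (fun i => homothet (x i) (l i) K) hD hopp hcov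
  choose I s hI hs hlt hgap hmax using hgr
  let θ : ℕ → ℝ := fun n => Nat.rec 0 (fun _ t => s t) n
  have hθ : ∀ n, θ (n + 1) = s (θ n) := fun n => rfl
  have hlt' : ∀ n, θ n < θ (n + 1) := fun n => by rw [hθ]; exact hlt _
  have hgap' : ∀ n, θ (n + 1) < θ n + π := fun n => by rw [hθ]; exact hgap _
  have hmono : StrictMono θ := strictMono_nat_of_lt_succ hlt'
  have hseg : ∀ n t, θ n ≤ t → t ≤ θ (n + 1) →
      N.S.P t ∈ homothet (x (I (θ n))) (l (I (θ n))) K := by
    intro n t h1 h2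
    exact hbet _ (θ n) (θ (n + 1)) t (hI _) (by rw [hθ]; exact hs _) (hgap' n) h1 h2
  -- pigeonhole
  obtain ⟨u, v, huv, hIuv⟩ := Fintype.exists_ne_map_eq_of_card_lt
    (fun n : Fin 6 => I (θ (n : ℕ))) (by simp)
  obtain ⟨j, k, hjk, hk5, hIjk⟩ : ∃ j k : ℕ, j < k ∧ k ≤ 5 ∧ I (θ j) = I (θ k) := by
    rcases lt_or_gt_of_ne (fun h => huv (Fin.ext h) : (u : ℕ) ≠ v) with h | h
    · exact ⟨u, v, h, by omega, hIuv⟩
    · exact ⟨v, u, h, by omega, hIuv.symm⟩
  have hper : ∀ t, N.S.P (t + 2 * π) = N.S.P t := N.S.per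
  have hpi := pi_pos
  -- main claim
  have claim : θ (j + 1) + 2 * π ≤ θ (k + 1) := by
    by_contra hlt2
    push Not at hlt2
    set i := I (θ j) with hi
    have Ba : N.S.P (θ j) ∈ homothet (x i) (l i) K := hI _
    have Bb : N.S.P (θ (j + 1)) ∈ homothet (x i) (l i) K := by rw [hθ]; exact hs _
    have Bc : N.S.P (θ k) ∈ homothet (x i) (l i) K := by rw [hIjk]; exact hI _
    have Bd : N.S.P (θ (k + 1)) ∈ homothet (x i) (l i) K := by rw [hIjk, hθ]; exact hs _
    have G1 : ∀ t, θ (j + 1) < t → t ≤ θ j + π → N.S.P t ∉ homothet (x i) (l i) K := by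
      intro t h1 h2; exact hmax (θ j) t h1 h2
    have G2 : ∀ t, θ (k + 1) < t → t ≤ θ k + π → N.S.P t ∉ homothet (x i) (l i) K := by
      intro t h1 h2
      have := hmax (θ k) t h1 h2
      rw [← hIjk] at this
      exact this
    have hbc : θ (j + 1) ≤ θ k := hmono.monotone hjk
    have hab := hlt' j
    have hab' := hgap' j
    have hcd := hlt' k
    have hcd' := hgap' k
    -- Step 1
    have st1 : θ j + π < θ k := by
      by_contra hle
      push Not at hle
      have hcb : θ k = θ (j + 1) := by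
        by_contra hne
        exact G1 (θ k) (lt_of_le_of_ne hbc (Ne.symm hne)) hle Bc
      rcases le_or_gt (θ (k + 1)) (θ j + π) with h | h
      · exact G1 (θ (k + 1)) (by rw [← hcb]; exact hcd) h Bd
      · have := hbet i (θ (j + 1)) (θ (k + 1)) (θ j + π) Bb Bd (by rw [← hcb]; exact hcd')
          hab'.le h.le
        exact hopp i (θ j) Ba this
    rcases lt_or_ge (θ k) (θ j + 2 * π) with h2 | h2
    · have nb : N.S.P (θ k - π) ∉ homothet (x i) (l i) K := by
        intro hh
        have := hopp i (θ k - π) hh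
        rw [sub_add_cancel] at this
        exact this Bc
      have hb1 : θ (j + 1) < θ k - π := by
        by_contra hle
        push Not at hle
        exact nb (hbet i (θ j) (θ (j + 1)) (θ k - π) Ba Bb hab' (by linarith) hle)
      exact G2 (θ (j + 1) + 2 * π) hlt2 (by linarith) (by rw [hper]; exact Bb)
    · exact G2 (θ (j + 1) + 2 * π) hlt2 (by linarith) (by rw [hper]; exact Bb)
  obtain ⟨m, hm1, hm2, hm3⟩ := N.reach_of (fun i => homothet (x i) (l i) K) θ hlt' hgap'
    (fun n => I (θ n)) hseg (k - j) (j + 1) (θ (j + 1) + 2 * π) (by linarith)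
    (by rw [show j + 1 + (k - j) = k + 1 by omega]; exact claim)
  exact N.reach_false hl (θ (j + 1)) (N.reach_five hl hm1 (by omega) hm3)

end Nice

end Pool.Agent.Lib.MP_5f370d_co
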