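import Pool.Agent.Lib.MP_5f370d_co.Core

set_option autoImplicit false

/-!
# The pentagon inequality, assembled
-/

namespace Pool.Agent.Lib.MP_5f370d_co

open Real

theorem prod5_lt {a0 a1 a2 a3 a4 b0 b1 b2 b3 b4 : ℝ} (h0 : 0 < a0) (h1 : 0 < a1) (h2 : 0 < a2)
    (h3 : 0 < a3) (h4 : 0 < a4) (k0 : a0 < b0) (k1 : a1 < b1) (k2 : a2 < b2) (k3 : a3 < b3)
    (k4 : a4 < b4) : a0 * a1 * a2 * a3 * a4 < b0 * b1 * b2 * b3 * b4 := by
  have m1 : a0 * a1 < b0 * b1 := mul_lt_mul'' k0 k1 h0.le h1.le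
  have m2 : a0 * a1 * a2 < b0 * b1 * b2 := mul_lt_mul'' m1 k2 (by positivity) h2.le
  have m3 : a0 * a1 * a2 * a3 < b0 * b1 * b2 * b3 := mul_lt_mul'' m2 k3 (by positivity) h3.le
  exact mul_lt_mul'' m3 k4 (by positivity) h4.le

/-- the product inequality -/
theorem prod_false {c0 c1 c2 c3 c4 d0 d1 d2 d3 d4 : ℝ} (hc0 : 0 < c0) (hc1 : 0 < c1)
    (hc2 : 0 < c2) (hc3 : 0 < c3) (hc4 : 0 < c4) (hd0 : 0 ≤ d0) (hd1 : 0 ≤ d1) (hd2 : 0 ≤ d2)
    (hd3 : 0 ≤ d3) (hd4 : 0 ≤ d4) (p0 : d0 * d1 ≤ c0 * c2) (p1 : d1 * d2 ≤ c1 * c3)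
    (p2 : d2 * d3 ≤ c2 * c4) (p3 : d3 * d4 ≤ c3 * c0) (p4 : d4 * d0 ≤ c4 * c1)
    (h : c0 * c1 * c2 * c3 * c4 < d0 * d1 * d2 * d3 * d4) : False := by
  have m1 : (d0 * d1) * (d1 * d2) ≤ (c0 * c2) * (c1 * c3) :=
    mul_le_mul p0 p1 (by positivity) (by positivity)
  have m2 : (d0 * d1) * (d1 * d2) * (d2 * d3) ≤ (c0 * c2) * (c1 * c3) * (c2 * c4) :=
    mul_le_mul m1 p2 (by positivity) (by positivity)
  have m3 : (d0 * d1) * (d1 * d2) * (d2 * d3) * (d3 * d4) ≤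
      (c0 * c2) * (c1 * c3) * (c2 * c4) * (c3 * c0) :=
    mul_le_mul m2 p3 (by positivity) (by positivity)
  have m4 : (d0 * d1) * (d1 * d2) * (d2 * d3) * (d3 * d4) * (d4 * d0) ≤
      (c0 * c2) * (c1 * c3) * (c2 * c4) * (c3 * c0) * (c4 * c1) :=
    mul_le_mul m3 p4 (by positivity) (by positivity)
  have e1 : (d0 * d1) * (d1 * d2) * (d2 * d3) * (d3 * d4) * (d4 * d0) =
      (d0 * d1 * d2 * d3 * d4) ^ 2 := by ring
  have e2 : (c0 * c2) * (c1 * c3) * (c2 * c4) * (c3 * c0) * (c4 * c1) =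
      (c0 * c1 * c2 * c3 * c4) ^ 2 := by ring
  rw [e1, e2] at m4
  have : 0 < c0 * c1 * c2 * c3 * c4 := by positivity
  nlinarith

/-- the cyclic system of inequalities has no solution -/
theorem cyc_false {c0 c1 c2 c3 c4 d0 d1 d2 d3 d4 x0 x1 x2 x3 x4 : ℝ} (hc0 : 0 < c0) (hc1 : 0 < c1)
    (hc2 : 0 < c2) (hc3 : 0 < c3) (hc4 : 0 < c4) (hd0 : 0 ≤ d0) (hd1 : 0 ≤ d1) (hd2 : 0 ≤ d2)
    (hd3 : 0 ≤ d3) (hd4 : 0 ≤ d4) (p0 : d0 * d1 ≤ c0 * c2) (p1 : d1 * d2 ≤ c1 * c3)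
    (p2 : d2 * d3 ≤ c2 * c4) (p3 : d3 * d4 ≤ c3 * c0) (p4 : d4 * d0 ≤ c4 * c1)
    (a0 : x1 * d0 < x0 * c0) (a1 : x2 * d1 < x1 * c1) (a2 : x3 * d2 < x2 * c2)
    (a3 : x4 * d3 < x3 * c3) (a4 : x0 * d4 < x4 * c4)
    (b0 : x1 * c2 < x0 * d1) (b1 : x2 * c3 < x1 * d2) (b2 : x3 * c4 < x2 * d3)
    (b3 : x4 * c0 < x3 * d4) (b4 : x0 * c1 < x4 * d0) : False := by
  have step : ∀ {x y c d : ℝ}, 0 < c → 0 ≤ d → y * c < x * d → x ≤ 0 → y < 0 := by
    intro x y c d hc hd h hx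
    by_contra hy
    push Not at hy
    nlinarith [mul_nonneg hy hc.le, mul_nonneg (neg_nonneg.mpr hx) hd]
  by_cases h : 0 < x0 ∧ 0 < x1 ∧ 0 < x2 ∧ 0 < x3 ∧ 0 < x4
  · obtain ⟨h0, h1, h2, h3, h4⟩ := h
    have := prod5_lt (by positivity) (by positivity) (by positivity) (by positivity)
      (by positivity) b0 b1 b2 b3 b4
    have e : c0 * c1 * c2 * c3 * c4 < d0 * d1 * d2 * d3 * d4 := by
      have hx : 0 < x0 * x1 * x2 * x3 * x4 := by positivity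
      have : (x0 * x1 * x2 * x3 * x4) * (c0 * c1 * c2 * c3 * c4) <
          (x0 * x1 * x2 * x3 * x4) * (d0 * d1 * d2 * d3 * d4) := by linarith
      exact lt_of_mul_lt_mul_left this hx.le
    exact prod_false hc0 hc1 hc2 hc3 hc4 hd0 hd1 hd2 hd3 hd4 p0 p1 p2 p3 p4 e
  · have hneg : x0 < 0 ∧ x1 < 0 ∧ x2 < 0 ∧ x3 < 0 ∧ x4 < 0 := by
      have s0 : x0 ≤ 0 → x1 < 0 := step hc2 hd1 b0
      have s1 : x1 ≤ 0 → x2 < 0 := step hc3 hd2 b1
      have s2 : x2 ≤ 0 → x3 < 0 := step hc4 hd3 b2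
      have s3 : x3 ≤ 0 → x4 < 0 := step hc0 hd4 b3
      have s4 : x4 ≤ 0 → x0 < 0 := step hc1 hd0 b4
      by_cases g0 : 0 < x0
      · by_cases g1 : 0 < x1
        · by_cases g2 : 0 < x2
          · by_cases g3 : 0 < x3
            · by_cases g4 : 0 < x4
              · exact absurd ⟨g0, g1, g2, g3, g4⟩ h
              · exact absurd g0 (s4 (not_lt.mp g4)).not_gt
            · exact absurd g0 (s4 (s3 (not_lt.mp g3)).le).not_gt
          · exact absurd g0 (s4 (s3 (s2 (not_lt.mp g2)).le).le).not_gt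
        · exact absurd g0 (s4 (s3 (s2 (s1 (not_lt.mp g1)).le).le).le).not_gt
      · have t1 := s0 (not_lt.mp g0)
        have t2 := s1 t1.le
        have t3 := s2 t2.le
        have t4 := s3 t3.le
        exact ⟨s4 t4.le, t1, t2, t3, t4⟩
    obtain ⟨h0, h1, h2, h3, h4⟩ := hneg
    have q0 : 0 < -x0 := by linarith
    have q1 : 0 < -x1 := by linarith
    have q2 : 0 < -x2 := by linarith
    have q3 : 0 < -x3 := by linarith
    have q4 : 0 < -x4 := by linarith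
    have := prod5_lt (a0 := -x0 * c0) (a1 := -x1 * c1) (a2 := -x2 * c2) (a3 := -x3 * c3)
      (a4 := -x4 * c4) (b0 := -x1 * d0) (b1 := -x2 * d1) (b2 := -x3 * d2) (b3 := -x4 * d3)
      (b4 := -x0 * d4) (by positivity) (by positivity) (by positivity) (by positivity)
      (by positivity) (by linarith) (by linarith) (by linarith) (by linarith) (by linarith)
    have e : c0 * c1 * c2 * c3 * c4 < d0 * d1 * d2 * d3 * d4 := by
      have hx : 0 < (-x0) * (-x1) * (-x2) * (-x3) * (-x4) := by positivity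
      have : ((-x0) * (-x1) * (-x2) * (-x3) * (-x4)) * (c0 * c1 * c2 * c3 * c4) <
          ((-x0) * (-x1) * (-x2) * (-x3) * (-x4)) * (d0 * d1 * d2 * d3 * d4) := by linarith
      exact lt_of_mul_lt_mul_left this hx.le
    exact prod_false hc0 hc1 hc2 hc3 hc4 hd0 hd1 hd2 hd3 hd4 p0 p1 p2 p3 p4 e

namespace Supp

variable (S : Supp)

/-- No body has five consecutive close support points in directions going once around. -/
theorem core (θ : ℕ → ℝ) (hper : ∀ n, θ (n + 5) = θ n + 2 * π) (hlt : ∀ n, θ n < θ (n + 1))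
    (hgap : ∀ n, θ (n + 1) < θ n + π)
    (hc1 : ∀ n, S.Close (S.P (θ n)) (S.P (θ (n + 1))))
    (hc2 : ∀ n, S.Close (S.P (θ (n + 1))) (S.P (θ n))) : False := by
  by_cases hlong : ∃ n, θ n + π ≤ θ (n + 2)
  · obtain ⟨n, hn⟩ := hlong
    exact S.long_false (θ n) (θ (n + 1)) (θ (n + 2)) (hlt n) (hlt (n + 1)) (hgap n) (hgap (n + 1))
      hn (hc1 n) (hc2 (n + 1))
  · push Not at hlong
    have hc : ∀ n, 0 < sin (θ (n + 1) - θ n) := fun n =>
      sin_pos_of_pos_of_lt_pi (by linarith [hlt n]) (by linarith [hgap n])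
    have hd : ∀ n, 0 ≤ sin (θ (n + 2) - θ n) := fun n =>
      sin_nonneg_of_nonneg_of_le_pi (by linarith [hlt n, hlt (n + 1)]) (by linarith [hlong n])
    have hda : ∀ n, sin (θ (n + 3) - θ n) ≤ 0 := by
      intro n
      have e1 := hlong (n + 3)
      have e2 := hper n
      have : sin (θ (n + 3) - θ n) = - sin (θ (n + 3) - θ n - π) := by rw [sin_sub_pi]; ring
      rw [this]
      have := sin_nonneg_of_nonneg_of_le_pi (x := θ (n + 3) - θ n - π)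
        (by rw [show n + 3 + 2 = n + 5 from rfl] at e1; linarith)
        (by linarith [hlong n, hgap (n + 2)])
      linarith
    let X : ℕ → ℝ := fun n => S.X (θ n) (θ (n + 1)) (θ (n + 2))
    have ha : ∀ n, X (n + 1) * sin (θ (n + 2) - θ n) < X n * sin (θ (n + 1) - θ n) := fun n =>
      S.short1 (θ n) (θ (n + 1)) (θ (n + 2)) (θ (n + 3)) (hc n) (hc (n + 1)) (hc (n + 2)) (hd n)
        (hda n) (hc1 (n + 1))
    have hb : ∀ n, X (n + 1) * sin (θ (n + 3) - θ (n + 2)) < X n * sin (θ (n + 3) - θ (n + 1)) :=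
      fun n => S.short2 (θ n) (θ (n + 1)) (θ (n + 2)) (θ (n + 3)) (hc n) (hc (n + 1)) (hc (n + 2))
        (hd (n + 1)) (hda n) (hc2 (n + 1))
    have hp : ∀ n, sin (θ (n + 2) - θ n) * sin (θ (n + 3) - θ (n + 1)) ≤
        sin (θ (n + 1) - θ n) * sin (θ (n + 3) - θ (n + 2)) := fun n =>
      plucker (θ n) (θ (n + 1)) (θ (n + 2)) (θ (n + 3)) (hc (n + 1)).le (hda n)
    have Xper : X 5 = X 0 := by
      simp only [X]
      have e0 := hper 0
      have e1 := hper 1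
      have e2 := hper 2
      simp only [Nat.zero_add] at e0
      norm_num at e1 e2 ⊢
      rw [e0, e1, e2]
      unfold Supp.X
      rw [S.h_per, S.h_per, S.per, ev_add_two_pi, ev_add_two_pi]
      congr 3
      · ring
      · ring
    have e0 : θ 5 = θ 0 + 2 * π := hper 0
    have e1 : θ 6 = θ 1 + 2 * π := hper 1
    have e2 : θ 7 = θ 2 + 2 * π := hper 2
    have ha0 := ha 0; have ha1 := ha 1; have ha2 := ha 2; have ha3 := ha 3; have ha4 := ha 4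
    have hb0 := hb 0; have hb1 := hb 1; have hb2 := hb 2; have hb3 := hb 3; have hb4 := hb 4
    have hp0 := hp 0; have hp1 := hp 1; have hp2 := hp 2; have hp3 := hp 3; have hp4 := hp 4
    have t1 : sin (θ 6 - θ 5) = sin (θ 1 - θ 0) := by rw [e0, e1]; ring_nf
    have t2 : sin (θ 7 - θ 5) = sin (θ 2 - θ 0) := by rw [e0, e2]; ring_nf
    have t3 : sin (θ 7 - θ 6) = sin (θ 2 - θ 1) := by rw [e1, e2]; ring_nf
    norm_num at ha0 ha1 ha2 ha3 ha4 hb0 hb1 hb2 hb3 hb4 hp0 hp1 hp2 hp3 hp4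
    rw [Xper] at ha4 hb4
    rw [t1] at hb3 hp3
    rw [t2] at hb4 hp4
    rw [t3] at hb4 hp4
    exact cyc_false (hc 0) (hc 1) (hc 2) (hc 3) (hc 4) (hd 0) (hd 1) (hd 2) (hd 3) (hd 4)
      hp0 hp1 hp2 hp3 hp4 ha0 ha1 ha2 ha3 ha4 hb0 hb1 hb2 hb3 hb4

end Supp

end Pool.Agent.Lib.MP_5f370d_co
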