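import Pool.Agent.Lib.MP_5f370d_co.NoFive

set_option autoImplicit false

/-!
# Reduction to strictly convex bodies
-/

namespace Pool.Agent.Lib.MP_5f370d_co

open Real Topology

/-- the unit vector in direction `θ` -/
noncomputable def uvec (θ : ℝ) : Plane := !₂[cos θ, sin θ]

theorem ev_uvec (θ : ℝ) : ev θ (uvec θ) = 1 := by
  simp only [ev, uvec, PiLp.toLp_apply, Matrix.cons_val_zero, Matrix.cons_val_one]
  nlinarith [sin_sq_add_cos_sq θ]

/-- squared Euclidean length in coordinates -/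
def sq (x : Plane) : ℝ := x 0 ^ 2 + x 1 ^ 2

theorem sq_nonneg' (x : Plane) : 0 ≤ sq x := by unfold sq; positivity

theorem sq_cont : Continuous sq := by unfold sq; fun_prop

theorem sq_comb (x y : Plane) (a b : ℝ) (h : a + b = 1) :
    sq (a • x + b • y) = a * sq x + b * sq y - a * b * sq (x - y) := by
  have ha : a = 1 - b := by linarith
  subst ha
  simp only [sq, PiLp.add_apply, PiLp.smul_apply, smul_eq_mul, PiLp.sub_apply]
  ring

theorem sq_pos (x : Plane) (h : x ≠ 0) : 0 < sq x := by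
  rcases (sq_nonneg' x).eq_or_lt with h0 | h0
  · exfalso; apply h
    unfold sq at h0
    have e0 : x 0 = 0 := by nlinarith [_root_.sq_nonneg (x 0), _root_.sq_nonneg (x 1)]
    have e1 : x 1 = 0 := by nlinarith [_root_.sq_nonneg (x 0), _root_.sq_nonneg (x 1)]
    ext i
    fin_cases i
    · simpa using e0
    · simpa using e1
  · exact h0

/-- strictly convex perturbation of a body containing the origin in its interior -/
def pert (K : Set Plane) (ε : ℝ) : Set Plane := {x | gauge K x ^ 2 + ε * sq x ≤ 1}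

section

variable {K : Set Plane} (hc : Convex ℝ K) (hcl : IsCompact K) (h0 : K ∈ 𝓝 (0 : Plane))
  {ε : ℝ} (hε : 0 < ε)

include hc h0 in
theorem pert_comb (x y : Plane) (a b : ℝ) (ha : 0 ≤ a) (hb : 0 ≤ b) (hab : a + b = 1) :
    gauge K (a • x + b • y) ^ 2 + ε * sq (a • x + b • y) ≤
      a * (gauge K x ^ 2 + ε * sq x) + b * (gauge K y ^ 2 + ε * sq y)
        - ε * (a * b * sq (x - y)) := by
  have h1 : gauge K (a • x + b • y) ≤ a * gauge K x + b * gauge K y := by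
    refine (gauge_add_le hc (absorbent_nhds_zero h0) _ _).trans ?_
    rw [gauge_smul_of_nonneg ha, gauge_smul_of_nonneg hb]
    simp
  have h2 : 0 ≤ gauge K (a • x + b • y) := gauge_nonneg _
  have h3 : gauge K (a • x + b • y) ^ 2 ≤ (a * gauge K x + b * gauge K y) ^ 2 :=
    pow_le_pow_left₀ h2 h1 2
  have h4 : (a * gauge K x + b * gauge K y) ^ 2 ≤ a * gauge K x ^ 2 + b * gauge K y ^ 2 := by
    have : a = 1 - b := by linarith
    subst this
    nlinarith [mul_nonneg (mul_nonneg ha hb) (_root_.sq_nonneg (gauge K x - gauge K y))]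
  rw [sq_comb x y a b hab]
  nlinarith

include hc h0 in
theorem pert_cont : Continuous fun x => gauge K x ^ 2 + ε * sq x :=
  ((continuous_gauge hc h0).pow 2).add (continuous_const.mul sq_cont)

include hc h0 in
theorem pert_closed : IsClosed (pert K ε) := isClosed_le (pert_cont hc h0) continuous_const

include hc hcl h0 hε in
theorem pert_subset : pert K ε ⊆ K := by
  intro x hx
  have h1 : gauge K x ^ 2 + ε * sq x ≤ 1 := hx
  have h2 : gauge K x ≤ 1 := by
    have := mul_nonneg hε.le (sq_nonneg' x)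
    have h3 := gauge_nonneg (s := K) x
    nlinarith
  have := (gauge_le_one_iff_mem_closure hc h0).mp h2
  rwa [hcl.isClosed.closure_eq] at this

include hc hcl h0 hε in
theorem pert_compact : IsCompact (pert K ε) :=
  hcl.of_isClosed_subset (pert_closed hc h0) (pert_subset hc hcl h0 hε)

include hc h0 hε in
theorem pert_convex : Convex ℝ (pert K ε) := by
  intro x hx y hy a b ha hb hab
  have h := pert_comb hc h0 (ε := ε) x y a b ha hb hab
  have h1 : gauge K x ^ 2 + ε * sq x ≤ 1 := hx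
  have h2 : gauge K y ^ 2 + ε * sq y ≤ 1 := hy
  show gauge K (a • x + b • y) ^ 2 + ε * sq (a • x + b • y) ≤ 1
  have h3 := mul_le_mul_of_nonneg_left h1 ha
  have h4 := mul_le_mul_of_nonneg_left h2 hb
  have h5 : 0 ≤ ε * (a * b * sq (x - y)) := by
    have := sq_nonneg' (x - y); positivity
  linarith

theorem zero_mem_pert : (0 : Plane) ∈ pert K ε := by
  show gauge K 0 ^ 2 + ε * sq 0 ≤ 1
  simp [sq]

include hc h0 in
/-- from a point of the open sublevel set we can move a little in direction `θ` -/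
theorem pert_move (m : Plane) (hm : gauge K m ^ 2 + ε * sq m < 1) (θ : ℝ) :
    ∃ δ : ℝ, 0 < δ ∧ m + δ • uvec θ ∈ pert K ε := by
  have hcont : Continuous fun δ : ℝ => gauge K (m + δ • uvec θ) ^ 2 + ε * sq (m + δ • uvec θ) :=
    (pert_cont hc h0).comp (by fun_prop)
  have hopen : IsOpen {δ : ℝ | gauge K (m + δ • uvec θ) ^ 2 + ε * sq (m + δ • uvec θ) < 1} :=
    isOpen_lt hcont continuous_const
  have hz : (0 : ℝ) ∈ {δ : ℝ | gauge K (m + δ • uvec θ) ^ 2 + ε * sq (m + δ • uvec θ) < 1} := by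
    simpa using hm
  obtain ⟨r, hr, hball⟩ := Metric.isOpen_iff.mp hopen 0 hz
  refine ⟨r / 2, by positivity, ?_⟩
  have : r / 2 ∈ Metric.ball (0 : ℝ) r := by
    rw [Metric.mem_ball, Real.dist_eq, sub_zero, abs_of_pos (by positivity)]; linarith
  have h2 : gauge K (m + (r / 2) • uvec θ) ^ 2 + ε * sq (m + (r / 2) • uvec θ) < 1 := hball this
  exact h2.le

theorem exists_max (C : Set Plane) (hC : IsCompact C) (hne : C.Nonempty) (θ : ℝ) :
    ∃ p ∈ C, ∀ x ∈ C, ev θ x ≤ ev θ p := by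
  have hcont : Continuous fun x => ev θ x := by unfold ev; fun_prop
  obtain ⟨p, hp, hmax⟩ := hC.exists_isMaxOn hne hcont.continuousOn
  exact ⟨p, hp, fun x hx => hmax hx⟩

include hc hcl h0 hε in
theorem pert_uniq (θ : ℝ) (p q : Plane) (hp : p ∈ pert K ε) (hq : q ∈ pert K ε)
    (hpm : ∀ x ∈ pert K ε, ev θ x ≤ ev θ p) (he : ev θ q = ev θ p) : q = p := by
  by_contra hne
  have hs : 0 < sq (p - q) := sq_pos _ (sub_ne_zero.mpr (Ne.symm hne))
  have h := pert_comb hc h0 (ε := ε) p q (1 / 2) (1 / 2) (by norm_num) (by norm_num) (by norm_num)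
  have h1 : gauge K p ^ 2 + ε * sq p ≤ 1 := hp
  have h2 : gauge K q ^ 2 + ε * sq q ≤ 1 := hq
  have h3 : gauge K ((1 / 2 : ℝ) • p + (1 / 2 : ℝ) • q) ^ 2 +
      ε * sq ((1 / 2 : ℝ) • p + (1 / 2 : ℝ) • q) < 1 := by
    have : 0 < ε * (1 / 2 * (1 / 2) * sq (p - q)) := by positivity
    linarith
  obtain ⟨δ, hδ, hmem⟩ := pert_move hc h0 _ h3 θ
  have h4 := hpm _ hmem
  rw [ev_add, ev_add, ev_smul, ev_smul, ev_smul, ev_uvec, he] at h4
  linarith

include hc hcl h0 hε in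
theorem pert_nice : Nonempty (Nice (pert K ε)) := by
  have hcpt := pert_compact hc hcl h0 hε
  have hne : (pert K ε).Nonempty := ⟨0, zero_mem_pert⟩
  choose P hP hmax using exists_max (pert K ε) hcpt hne
  have huniq : ∀ θ, ∀ x ∈ pert K ε, ev θ x = ev θ (P θ) → x = P θ := fun θ x hx he =>
    pert_uniq hc hcl h0 hε θ (P θ) x (hP θ) hx (hmax θ) he
  let S : Supp :=
    { P := P
      le := fun θ φ => hmax θ _ (hP φ)
      per := fun θ => by
        apply huniq θ _ (hP _)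
        apply le_antisymm (hmax θ _ (hP _))
        have := hmax (θ + 2 * π) (P θ) (hP θ)
        rwa [ev_add_two_pi, ev_add_two_pi] at this }
  refine ⟨⟨S, hcpt, pert_convex hc h0 hε, hP, hmax, huniq, ?_⟩⟩
  intro θ
  obtain ⟨δ, hδ, hmem⟩ := pert_move hc h0 (ε := ε) (0 : Plane) (by simp [sq]) θ
  have h1 : ev θ (0 + δ • uvec θ) ≤ S.h θ := hmax θ _ hmem
  rw [zero_add, ev_smul, ev_uvec] at h1
  have h2 : ev (θ + π) (0 : Plane) ≤ S.h (θ + π) := hmax (θ + π) _ zero_mem_pert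
  have h3 : ev (θ + π) (0 : Plane) = 0 := by simp [ev]
  linarith

end

/-- A plane convex body is not covered by five homothetic copies of ratios smaller than 1/2. -/
theorem not_coverable_five_zero (K : Set Plane) (hc : Convex ℝ K) (hcl : IsCompact K)
    (h0 : K ∈ 𝓝 (0 : Plane)) (x : Fin 5 → Plane) (l : Fin 5 → ℝ)
    (hl : ∀ i, 0 < l i ∧ l i < 1 / 2) (hcov : ∀ p ∈ K, ∃ i, p ∈ homothet (x i) (l i) K) :
    False := by
  -- choose delta
  obtain ⟨i0, -, hi0⟩ := Finset.exists_max_image Finset.univ l Finset.univ_nonempty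
  have hL := hl i0
  obtain ⟨δ, hδ, hδ'⟩ : ∃ δ > 0, l i0 * (1 + δ) < 1 / 2 := by
    refine ⟨1 / (2 * (l i0 + 1 / 2)) * (1 / 2 - l i0), by
      have : 0 < 1 / 2 - l i0 := by linarith [hL.2]
      have : 0 < l i0 := hL.1
      positivity, ?_⟩
    have h1 : 0 < l i0 := hL.1
    have h2 : 0 < 1 / 2 - l i0 := by linarith [hL.2]
    have h3 : l i0 * (1 / (2 * (l i0 + 1 / 2))) < 1 := by
      rw [mul_one_div, div_lt_one (by positivity)]; linarith
    nlinarith
  obtain ⟨R, hR⟩ : ∃ R : ℝ, ∀ p ∈ K, sq p ≤ R := by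
    obtain ⟨R, hR⟩ := (hcl.image sq_cont).bddAbove
    exact ⟨R, fun p hp => hR ⟨p, hp, rfl⟩⟩
  have hR0 : 0 ≤ R := le_trans (sq_nonneg' 0) (hR 0 (mem_of_mem_nhds h0))
  set ε := δ / (R + 1) with hεd
  have hε : 0 < ε := by positivity
  have hεR : ε * R ≤ δ := by
    rw [hεd, div_mul_eq_mul_div, div_le_iff₀ (by positivity)]
    nlinarith
  obtain ⟨N⟩ := pert_nice hc hcl h0 hε
  have hbig : ∀ p ∈ K, ∃ q ∈ pert K ε, p = (1 + δ) • q := by
    intro p hp
    have h1δ : (0 : ℝ) < 1 + δ := by linarith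
    refine ⟨(1 + δ)⁻¹ • p, ?_, by rw [smul_smul, mul_inv_cancel₀ h1δ.ne', one_smul]⟩
    have g1 : gauge K p ≤ 1 := gauge_le_one_of_mem hp
    have g2 : gauge K ((1 + δ)⁻¹ • p) = (1 + δ)⁻¹ * gauge K p := by
      rw [gauge_smul_of_nonneg (by positivity)]; simp
    have g3 : sq ((1 + δ)⁻¹ • p) = (1 + δ)⁻¹ ^ 2 * sq p := by
      simp only [sq, PiLp.smul_apply, smul_eq_mul]; ring
    show gauge K ((1 + δ)⁻¹ • p) ^ 2 + ε * sq ((1 + δ)⁻¹ • p) ≤ 1
    rw [g2, g3]
    have g4 : gauge K p ^ 2 ≤ 1 := by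
      have := gauge_nonneg (s := K) p
      nlinarith
    have g5 : ε * sq p ≤ δ := (mul_le_mul_of_nonneg_left (hR p hp) hε.le).trans hεR
    have g6 : (1 + δ)⁻¹ ^ 2 * (1 + δ) ^ 2 = 1 := by
      rw [← mul_pow, inv_mul_cancel₀ h1δ.ne', one_pow]
    have g7 : 0 < (1 + δ)⁻¹ ^ 2 := by positivity
    have g8 : ((1 + δ)⁻¹ * gauge K p) ^ 2 + ε * ((1 + δ)⁻¹ ^ 2 * sq p) =
        (1 + δ)⁻¹ ^ 2 * (gauge K p ^ 2 + ε * sq p) := by ring
    rw [g8]
    have g9 : (1 + δ)⁻¹ ^ 2 * (gauge K p ^ 2 + ε * sq p) ≤ (1 + δ)⁻¹ ^ 2 * (1 + δ) ^ 2 :=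
      mul_le_mul_of_nonneg_left (by nlinarith) g7.le
    linarith
  apply N.no_five x (fun i => l i * (1 + δ))
  · intro i
    have h1 := hi0 i (Finset.mem_univ i)
    refine ⟨mul_pos (hl i).1 (by linarith), lt_of_le_of_lt ?_ hδ'⟩
    exact mul_le_mul_of_nonneg_right h1 (by linarith)
  · intro p hp
    obtain ⟨i, k, hk, hki⟩ := hcov p (pert_subset hc hcl h0 hε hp)
    obtain ⟨q, hq, hqk⟩ := hbig k hk
    refine ⟨i, q, hq, ?_⟩
    rw [← hki, hqk]
    simp only [smul_smul]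

theorem not_coverable_five (K : Set Plane) (hK : IsConvexBody K) : ¬ CoverableBelowHalf 5 K := by
  obtain ⟨hcl, hc, ⟨x0, hx0⟩⟩ := hK
  rintro ⟨x, l, hl, hcov⟩
  let K0 : Set Plane := (fun p => p - x0) '' K
  have hcl0 : IsCompact K0 := hcl.image (by fun_prop)
  have hc0 : Convex ℝ K0 := by
    rintro _ ⟨p, hp, rfl⟩ _ ⟨q, hq, rfl⟩ a b ha hb hab
    refine ⟨a • p + b • q, hc hp hq ha hb hab, ?_⟩
    have : x0 = (a + b) • x0 := by rw [hab, one_smul]
    simp only
    nth_rewrite 1 [this]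
    module
  have h00 : K0 ∈ 𝓝 (0 : Plane) := by
    have h1 : K ∈ 𝓝 x0 := mem_interior_iff_mem_nhds.mp hx0
    have h2 : (fun p : Plane => p + x0) ⁻¹' K ∈ 𝓝 (0 : Plane) := by
      apply ContinuousAt.preimage_mem_nhds (by fun_prop)
      simpa using h1
    apply Filter.mem_of_superset h2
    intro p hp
    exact ⟨p + x0, hp, by simp⟩
  refine not_coverable_five_zero K0 hc0 hcl0 h00 (fun i => x i - x0 + l i • x0) l hl ?_
  rintro _ ⟨p, hp, rfl⟩
  obtain ⟨i, hi⟩ := Set.mem_iUnion.mp (hcov hp)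
  obtain ⟨k, hk, hki⟩ := hi
  refine ⟨i, k - x0, ⟨k, hk, rfl⟩, ?_⟩
  simp only at hki ⊢
  rw [← hki]
  module

end Pool.Agent.Lib.MP_5f370d_co
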